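import Pool.Agent.K7.H14.TG.Stm

set_option autoImplicit false

namespace Pool.Agent.K7.H14.TG

open Finset

lemma Wk.trans {α : Type} {G : α → α → Prop} {x y z : α} {k l : ℕ} (h1 : Wk G k x y)
    (h2 : Wk G l y z) : Wk G (k + l) x z := by
  induction l generalizing z with
  | zero => obtain rfl : y = z := h2; exact h1
  | succ l ih =>
    obtain ⟨w, hw, hG⟩ := h2
    exact ⟨w, ih hw, hG⟩

lemma growth {α : Type} [Fintype α] (B : ℕ → Finset α) (hmono : ∀ t, B t ⊆ B (t + 1))
    (hst : ∀ t, B (t + 1) ⊆ B t → B t = univ) (t : ℕ) :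
    min ((B 0).card + t) (Fintype.card α) ≤ (B t).card := by
  induction t with
  | zero => simp
  | succ t ih =>
    by_cases h : B (t + 1) ⊆ B t
    · have h1 := hst t h
      have h2 : B (t + 1) = univ := by
        rw [eq_univ_iff_forall]
        intro x
        exact hmono t (h1 ▸ mem_univ x)
      rw [h2, card_univ]
      exact min_le_right _ _
    · have h1 : (B t).card < (B (t + 1)).card :=
        card_lt_card ⟨hmono t, h⟩
      omega

/-- full at `k` implies full at `k + 1` -/
lemma persist {α : Type} {G : α → α → Prop} {j : α} {k : ℕ} (hk : 1 ≤ k)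
    (h : ∀ u, Wk G k j u) : ∀ l, k ≤ l → ∀ u, Wk G l j u := by
  intro l hl
  induction l, hl using Nat.le_induction with
  | base => exact h
  | succ l hl ih =>
    intro u
    obtain ⟨m, rfl⟩ : ∃ m, k = m + 1 := ⟨k - 1, by omega⟩
    obtain ⟨z, -, hz⟩ := h u
    exact ⟨z, ih z, hz⟩

lemma no_sum (a : ℕ) (ha : 2 ≤ a) (l : List ℕ) (hl : ∀ i ∈ l, a ≤ i ∧ i ≤ a + 1) :
    l.sum ≠ a * a - a - 1 := by
  have h1 : l.length * a ≤ l.sum := by
    have := List.card_nsmul_le_sum l a (fun i hi => (hl i hi).1)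
    simpa using this
  have h2 : l.sum ≤ l.length * (a + 1) := by
    have := List.sum_le_card_nsmul l (a + 1) (fun i hi => (hl i hi).2)
    simpa using this
  intro h
  rw [h] at h1 h2
  obtain ⟨b, rfl⟩ : ∃ b, a = b + 2 := ⟨a - 2, by omega⟩
  have h3 : (b + 2) * (b + 2) - (b + 2) - 1 = b * b + 3 * b + 1 := by
    have : (b + 2) * (b + 2) = b * b + 3 * b + 1 + (b + 2) + 1 := by ring
    omega
  rw [h3] at h1 h2
  rcases Nat.lt_or_ge b l.length with h4 | h4
  · have : (b + 1) * (b + 2) ≤ l.length * (b + 2) := Nat.mul_le_mul_right _ h4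
    nlinarith
  · have : l.length * (b + 2 + 1) ≤ b * (b + 2 + 1) := Nat.mul_le_mul_right _ h4
    nlinarith

lemma sum_eq_mul (c : ℕ) (l : List ℕ) (hl : ∀ i ∈ l, c ≤ i ∧ i ≤ c) : c ∣ l.sum := by
  apply List.dvd_sum
  intro i hi
  have := hl i hi
  have : i = c := by omega
  rw [this]

theorem red (hUp1 : StUp1) (hUp2 : StUp2) (hDec : StDec) (α : Type) [Fintype α]
    (G : α → α → Prop) (j : α) (c : ℕ) (hc : Fintype.card α = c + 1) (hev : Even c) (h10 : 10 ≤ c)
    (hfull : ∃ k, 1 ≤ k ∧ ∀ u, Wk G k j u) (hnp : ∃ j', ∀ k, 1 ≤ k → ∃ u, ¬ Wk G k j' u) :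
    (¬ ∀ u, Wk G ((c - 1) * (c - 1) - (c - 1) - 1) j u) ∨
      ∀ u, Wk G ((c - 2) * (c - 2) + 5) j u := by
  classical
  obtain ⟨k0, hk0, hk0'⟩ := hfull
  let β := {v : α // ∃ k, Wk G k v j}
  let G' : β → β → Prop := fun x y => G x.1 y.1
  have hres : ∀ k (x y : β), Wk G k x.1 y.1 ↔ Wk G' k x y := by
    intro k
    induction k with
    | zero => intro x y; exact Subtype.ext_iff.symm
    | succ k ih =>
      intro x y
      constructor
      · rintro ⟨z, hz, hG⟩
        obtain ⟨l, hl⟩ := y.2
        have hzC : ∃ k, Wk G k z j := ⟨1 + l, Wk.trans (⟨z, rfl, hG⟩ : Wk G 1 z y.1) hl⟩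
        exact ⟨⟨z, hzC⟩, (ih x ⟨z, hzC⟩).1 hz, hG⟩
      · rintro ⟨z, hz, hG⟩
        exact ⟨z.1, (ih x z).2 hz, hG⟩
  let j0 : β := ⟨j, 0, rfl⟩
  have hP : Prim G' j0 := by
    refine ⟨fun x y => ?_, ⟨k0, fun y => (hres _ _ _).1 (hk0' y.1)⟩⟩
    obtain ⟨l, hl⟩ := x.2
    exact ⟨l + k0, (hres _ _ _).1 (hl.trans (hk0' y.1))⟩
  -- the component is not everything
  obtain ⟨j', hj'⟩ := hnp
  have hjC : ¬ ∃ k, Wk G k j' j := by
    rintro ⟨l, hl⟩
    obtain ⟨u, hu⟩ := hj' (l + k0) (by omega)
    exact hu (hl.trans (hk0' u))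
  have hcard : Fintype.card β ≤ c := by
    have : Fintype.card β < Fintype.card α :=
      Fintype.card_subtype_lt (x := j') hjC
    omega
  have hcpos : 0 < Fintype.card β := Fintype.card_pos_iff.2 ⟨j0⟩
  -- tails
  have htail : ∀ u : α, ∃ t ≤ c + 1 - Fintype.card β, ∃ v : β, Wk G t v.1 u := by
    let B : ℕ → Finset α := fun t => univ.filter fun u => ∃ t' ≤ t, ∃ v : β, Wk G t' v.1 u
    have hB0 : (B 0).card = Fintype.card β := by
      have : B 0 = univ.filter fun v : α => ∃ k, Wk G k v j := by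
        ext u
        simp only [B, mem_filter, mem_univ, true_and]
        constructor
        · rintro ⟨t', ht', v, hv⟩
          obtain rfl : t' = 0 := by omega
          obtain rfl : v.1 = u := hv
          exact v.2
        · intro h
          exact ⟨0, le_rfl, ⟨u, h⟩, rfl⟩
      rw [this, Fintype.card_subtype]
    have hg := growth B (fun t u hu => by
      simp only [B, mem_filter, mem_univ, true_and] at hu ⊢
      obtain ⟨t', ht', v, hv⟩ := hu
      exact ⟨t', by omega, v, hv⟩) (fun t ht => by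
      rw [eq_univ_iff_forall]
      intro u
      have key : ∀ l u, Wk G l j u → u ∈ B t := by
        intro l
        induction l with
        | zero =>
          intro u hu
          obtain rfl : j = u := hu
          simp only [B, mem_filter, mem_univ, true_and]
          exact ⟨0, by omega, j0, rfl⟩
        | succ l ih =>
          rintro u ⟨z, hz, hG⟩
          have h1 := ih z hz
          apply ht
          simp only [B, mem_filter, mem_univ, true_and] at h1 ⊢
          obtain ⟨t', ht', v, hv⟩ := h1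
          exact ⟨t' + 1, by omega, v, ⟨z, hv, hG⟩⟩
      exact key k0 u (hk0' u)) (c + 1 - Fintype.card β)
    rw [hB0, hc] at hg
    have h1 : (B (c + 1 - Fintype.card β)).card = Fintype.card α := by
      have := card_le_univ (B (c + 1 - Fintype.card β))
      omega
    have h2 : B (c + 1 - Fintype.card β) = univ := (card_eq_iff_eq_univ _).1 h1
    intro u
    have h3 : u ∈ B (c + 1 - Fintype.card β) := h2 ▸ mem_univ u
    simp only [B, mem_filter, mem_univ, true_and] at h3
    exact h3
  have hbound : ∀ e, (∀ k, e ≤ k → ∀ y, Wk G' k j0 y) →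
      ∀ k, e + (c + 1 - Fintype.card β) ≤ k → ∀ u, Wk G k j u := by
    intro e he k hk u
    obtain ⟨t, ht, v, hv⟩ := htail u
    have h1 := (hres _ _ _).2 (he (k - t) (by omega) v)
    have h2 := h1.trans hv
    have h3 : k - t + t = k := by omega
    rw [h3] at h2
    exact h2
  -- the girth
  have hex : ∃ s, 1 ≤ s ∧ ∃ x, Wk G' s x x := ⟨k0, hk0, j0, (hres _ _ _).1 (hk0' j)⟩
  obtain ⟨s, ⟨hs1, hsx⟩, hsmin⟩ : ∃ s, (1 ≤ s ∧ ∃ x, Wk G' s x x) ∧
      ∀ k x, 1 ≤ k → k < s → ¬ Wk G' k x x := by
    refine ⟨Nat.find hex, Nat.find_spec hex, fun k x hk hks hw => ?_⟩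
    exact Nat.find_min hex hks ⟨hk, x, hw⟩
  have hsc : s ≤ Fintype.card β := by
    by_contra hlt
    obtain ⟨x, hx⟩ := hsx
    obtain ⟨l, hl, hl'⟩ := hDec β G' s hs1 hsmin s x hx
    cases l with
    | nil => simp at hl; omega
    | cons i l =>
      have := hl' i (by simp)
      omega
  have hUp := hUp1 β G' j0 s hP hs1 hsx hsmin
  obtain ⟨b, hb⟩ : ∃ b, c = b + 10 := ⟨c - 10, by omega⟩
  have hK : (c - 1) * (c - 1) - (c - 1) - 1 = b * b + 17 * b + 71 := by
    subst hb
    have : (b + 10 - 1) = b + 9 := by omega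
    rw [this]
    have : (b + 9) * (b + 9) = b * b + 17 * b + 71 + (b + 9) + 1 := by ring
    omega
  have hK2 : (c - 2) * (c - 2) + 5 = b * b + 16 * b + 69 := by
    subst hb
    have : (b + 10 - 2) = b + 8 := by omega
    rw [this]
    ring
  rw [hK, hK2]
  rcases Nat.lt_or_ge (Fintype.card β) c with hlt | hge
  · right
    obtain ⟨c', hc'⟩ : ∃ c', c' = Fintype.card β := ⟨_, rfl⟩
    rw [← hc'] at hUp hsc hlt hcpos hbound
    refine hbound _ hUp _ ?_
    rcases Nat.lt_or_ge c' 2 with h1 | h1
    · have h2 : c' = 1 := by omega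
      have h3 : s = 1 := by omega
      rw [h2, h3, hb]
      simp only [Nat.sub_self, Nat.mul_zero, Nat.zero_add]
      generalize b * b = q
      omega
    · have hsne : s ≠ c' := by
        intro hse
        have hdv : ∀ L x, Wk G' L x x → c' ∣ L := by
          intro L x hx
          obtain ⟨l, hl, hl'⟩ := hDec β G' s hs1 hsmin L x hx
          rw [← hl]
          refine sum_eq_mul c' l fun i hi => ?_
          have := hl' i hi
          omega
        have h2 := hdv k0 j0 ((hres _ _ _).1 (hk0' j))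
        have h3 := hdv (k0 + 1) j0 ((hres _ _ _).1 (persist hk0 hk0' (k0 + 1) (by omega) j))
        have h4 : c' ∣ 1 := (Nat.dvd_add_right h2).1 h3
        have := Nat.le_of_dvd one_pos h4
        omega
      obtain ⟨r, hr⟩ : ∃ r, c' = s + 1 + r := ⟨c' - s - 1, by omega⟩
      obtain ⟨q, hq⟩ : ∃ q, c = c' + 1 + q := ⟨c - c' - 1, by omega⟩
      have e1 : c' - s = r + 1 := by omega
      have e2 : c' - 1 = s + r := by omega
      have e3 : c + 1 - c' = q + 2 := by omega
      rw [e1, e2, e3]
      have hbq : b + 10 = s + 1 + r + 1 + q := by omega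
      have : s * (s + r) + r + 1 + (q + 2) ≤ b * b + 16 * b + 69 := by
        have hb' : (b : ℤ) = s + r + q - 8 := by
          have : ((b + 10 : ℕ) : ℤ) = ((s + 1 + r + 1 + q : ℕ) : ℤ) := by rw [hbq]
          push_cast at this; linarith
        have hs' : (1 : ℤ) ≤ s := by exact_mod_cast hs1
        have hr' : (0 : ℤ) ≤ r := by positivity
        have hq' : (0 : ℤ) ≤ q := by positivity
        have hbb : (0 : ℤ) ≤ b := by positivity
        have : ((s * (s + r) + r + 1 + (q + 2) : ℕ) : ℤ) ≤ ((b * b + 16 * b + 69 : ℕ) : ℤ) := by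
          push_cast
          have hsum : (8 : ℤ) ≤ s + r + q := by linarith
          rw [hb']
          nlinarith [mul_nonneg (sub_nonneg.2 hs') hr', mul_nonneg (sub_nonneg.2 hs') hq',
            mul_nonneg hr' hq', mul_nonneg hr' hr', mul_nonneg hq' hq']
        exact_mod_cast this
      omega
  · have hce : Fintype.card β = c := by omega
    have hUp2' := hUp2 β G' j0 hP
    rw [hce] at hUp hsc hbound hUp2'
    rcases Nat.lt_or_ge s (c - 2) with h1 | h1
    · right
      refine hbound _ hUp _ ?_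
      obtain ⟨r, hr⟩ : ∃ r, c = s + 3 + r := ⟨c - s - 3, by omega⟩
      have e1 : c - s = r + 3 := by omega
      have e2 : c - 1 = s + r + 2 := by omega
      have e3 : c + 1 - c = 1 := by omega
      rw [e1, e2, e3]
      have hbq : b + 10 = s + 3 + r := by omega
      have : r + 3 + s * (s + r + 2) + 1 ≤ b * b + 16 * b + 69 := by
        have hb' : (b : ℤ) = s + r - 7 := by
          have : ((b + 10 : ℕ) : ℤ) = ((s + 3 + r : ℕ) : ℤ) := by rw [hbq]
          push_cast at this; linarith
        have hs' : (1 : ℤ) ≤ s := by exact_mod_cast hs1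
        have hr' : (0 : ℤ) ≤ r := by positivity
        have hbb : (0 : ℤ) ≤ b := by positivity
        have : ((r + 3 + s * (s + r + 2) + 1 : ℕ) : ℤ) ≤ ((b * b + 16 * b + 69 : ℕ) : ℤ) := by
          push_cast
          have hsum : (7 : ℤ) ≤ s + r := by linarith
          rw [hb']
          nlinarith [mul_nonneg (sub_nonneg.2 hs') hr', mul_nonneg hr' hr']
        exact_mod_cast this
      omega
    · rcases Nat.lt_or_ge s (c - 1) with h2 | h2
      · right
        have hs2 : s = c - 2 := by omega
        rw [hs2] at hsx hsmin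
        refine hbound _ (hUp2' hev (by omega) hsx hsmin) _ ?_
        have e1 : c - 1 = b + 9 := by omega
        have e2 : c - 2 = b + 8 := by omega
        have e3 : c - 3 = b + 7 := by omega
        have e4 : c + 1 - c = 1 := by omega
        rw [e1, e2, e3, e4]
        have : 3 + (b + 9) + (b + 8) * (b + 7) + 1 ≤ b * b + 16 * b + 69 := by
          have e5 : (b + 8) * (b + 7) = b * b + 15 * b + 56 := by ring
          rw [e5]; omega
        omega
      · left
        intro hall
        have h3 := (hres _ j0 j0).1 (hall j0.1)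
        obtain ⟨l, hl, hl'⟩ := hDec β G' (c - 1) (by omega) (fun k x hk hk' => hsmin k x hk (by omega))
          _ j0 h3
        have h4 := no_sum (c - 1) (by omega) l (fun i hi => by
          have := hl' i hi
          omega)
        apply h4
        rw [hl, ← hK]

end Pool.Agent.K7.H14.TG
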