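import Mathlib

/-!
# Walks in finite digraphs: statements for the gaps of the j-primitive degrees (order two)
-/

set_option autoImplicit false

namespace Pool.Agent.K7.H14.TG

/-- there is a walk of length `k` from `x` to `y` -/
def Wk {α : Type} (G : α → α → Prop) : ℕ → α → α → Prop
  | 0, x, y => x = y
  | k + 1, x, y => ∃ z, Wk G k x z ∧ G z y

/-- strongly connected, and all vertices are ends of walks of one length which start at `j` -/
structure Prim {α : Type} (G : α → α → Prop) (j : α) : Prop where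
  conn : ∀ x y, ∃ k, Wk G k x y
  full : ∃ k, ∀ y, Wk G k j y

/-- UP1. Girth `s`: all lengths from `c + s (c - 2)` on occur. -/
def StUp1 : Prop := ∀ (α : Type) [Fintype α] (G : α → α → Prop) (j : α) (s : ℕ), Prim G j →
  1 ≤ s → (∃ x, Wk G s x x) → (∀ k x, 1 ≤ k → k < s → ¬ Wk G k x x) →
    ∀ k, Fintype.card α - s + s * (Fintype.card α - 1) ≤ k → ∀ y, Wk G k j y

/-- UP2. `c` even, girth `c - 2`. -/
def StUp2 : Prop := ∀ (α : Type) [Fintype α] (G : α → α → Prop) (j : α), Prim G j →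
  Even (Fintype.card α) → 6 ≤ Fintype.card α → (∃ x, Wk G (Fintype.card α - 2) x x) →
  (∀ k x, 1 ≤ k → k < Fintype.card α - 2 → ¬ Wk G k x x) →
    ∀ k, 3 + (Fintype.card α - 1) + (Fintype.card α - 2) * (Fintype.card α - 3) ≤ k →
      ∀ y, Wk G k j y

/-- DEC. If all closed walks have length at least `a` then every closed walk length is a sum of
numbers from `a` to `c`. -/
def StDec : Prop := ∀ (α : Type) [Fintype α] (G : α → α → Prop) (a : ℕ), 1 ≤ a →
  (∀ k x, 1 ≤ k → k < a → ¬ Wk G k x x) →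
    ∀ L x, Wk G L x x → ∃ l : List ℕ, l.sum = L ∧ ∀ i ∈ l, a ≤ i ∧ i ≤ Fintype.card α

/-- EX. The example: a non-primitive digraph on `c + 1` vertices. -/
def StEx : Prop := ∀ (c : ℕ), 4 ≤ c → ∀ j : Fin (c + 1), ∃ G : Fin (c + 1) → Fin (c + 1) → Prop,
  (∃ k, 1 ≤ k ∧ ∀ u, Wk G k j u) ∧ (∃ j', ∀ k, 1 ≤ k → ∃ u, ¬ Wk G k j' u) ∧
    ¬ Wk G ((c - 1) * (c - 1) - (c - 1) - 1) j j

end Pool.Agent.K7.H14.TG
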