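import Pool.Agent.K7.H14.TG.Red
import Pool.Agent.K7.H60.TG_DEC

set_option autoImplicit false

namespace Pool.Agent.K7.H14.TG

open Finset Pool.Agent.K7.H60.TGDEC

lemma reach {α : Type} [Fintype α] {G : α → α → Prop} (hconn : ∀ x y, ∃ k, Wk G k x y) (x : α)
    (T : Finset α) (t : ℕ) (hT : Fintype.card α < T.card + min (1 + t) (Fintype.card α)) :
    ∃ k ≤ t, ∃ y ∈ T, Wk G k x y := by
  classical
  let B : ℕ → Finset α := fun t => univ.filter fun u => ∃ k ≤ t, Wk G k x u
  have hB0 : (B 0).card = 1 := by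
    have : B 0 = {x} := by
      ext u
      simp only [B, mem_filter, mem_univ, true_and, mem_singleton]
      constructor
      · rintro ⟨k, hk, hw⟩
        obtain rfl : k = 0 := by omega
        exact hw.symm
      · rintro rfl
        exact ⟨0, le_rfl, rfl⟩
    rw [this, card_singleton]
  have hg := growth B (fun t u hu => by
    simp only [B, mem_filter, mem_univ, true_and] at hu ⊢
    obtain ⟨k, hk, hw⟩ := hu
    exact ⟨k, by omega, hw⟩) (fun t ht => by
    rw [eq_univ_iff_forall]
    intro u
    have key : ∀ l u, Wk G l x u → u ∈ B t := by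
      intro l
      induction l with
      | zero =>
        intro u hu
        obtain rfl : x = u := hu
        simp only [B, mem_filter, mem_univ, true_and]
        exact ⟨0, by omega, rfl⟩
      | succ l ih =>
        rintro u ⟨z, hz, hG⟩
        have h1 := ih z hz
        apply ht
        simp only [B, mem_filter, mem_univ, true_and] at h1 ⊢
        obtain ⟨k, hk, hw⟩ := h1
        exact ⟨k + 1, by omega, ⟨z, hw, hG⟩⟩
    obtain ⟨k, hk⟩ := hconn x u
    exact key k u hk) t
  rw [hB0] at hg
  by_contra hcon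
  push Not at hcon
  have hdis : Disjoint (B t) T := by
    rw [disjoint_left]
    intro u hu huT
    simp only [B, mem_filter, mem_univ, true_and] at hu
    obtain ⟨k, hk, hw⟩ := hu
    exact hcon k hk u huT hw
  have h1 := card_union_of_disjoint hdis
  have h2 := card_le_univ (B t ∪ T)
  omega

/-- the vertices of a closed walk without repetition -/
lemma cyc {α : Type} [DecidableEq α] {G : α → α → Prop} {L : ℕ} {x : α} (h : Wk G L x x)
    (hrep : ∀ i z, 1 ≤ i → i < L → Wk G i z z → Wk G (L - i) x x → False) :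
    ∃ Z : Finset α, Z.card = L ∧ ∀ z ∈ Z, Wk G L z z := by
  obtain ⟨w, h0, hL, hw⟩ := wk_fun G L x x h
  refine ⟨(range L).image w, ?_, ?_⟩
  · rw [card_image_of_injOn, card_range]
    intro i hi j hj hij
    have key : ∀ i j, i < j → j < L → w i = w j → False := by
      intro i j hij hj he
      have h1 : Wk G (j - i) (w i) (w j) := fun_wk G w i j hij.le (fun t _ ht => hw t (by omega))
      have h2 : Wk G (i - 0) (w 0) (w i) := fun_wk G w 0 i (Nat.zero_le _)
        (fun t _ ht => hw t (by omega))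
      have h3 : Wk G (L - j) (w j) (w L) := fun_wk G w j L hj.le (fun t _ ht => hw t ht)
      rw [← he] at h1 h3
      have h4 := h2.trans h3
      rw [h0, hL] at h4
      have e : i - 0 + (L - j) = L - (j - i) := by omega
      rw [e] at h4
      exact hrep (j - i) (w i) (by omega) (by omega) h1 h4
    rcases lt_trichotomy i j with h1 | h1 | h1
    · exact absurd hij (fun he => key i j h1 (by simpa using hj) he)
    · exact h1
    · exact absurd hij.symm (fun he => key j i h1 (by simpa using hi) he)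
  · intro z hz
    obtain ⟨i, hi, rfl⟩ := mem_image.1 hz
    have hi' : i < L := by simpa using hi
    have h2 : Wk G (i - 0) (w 0) (w i) := fun_wk G w 0 i (Nat.zero_le _)
      (fun t _ ht => hw t (by omega))
    have h3 : Wk G (L - i) (w i) (w L) := fun_wk G w i L hi'.le (fun t _ ht => hw t ht)
    rw [hL, ← h0] at h3
    have h4 := h3.trans h2
    have e : L - i + (i - 0) = L := by omega
    rwa [e] at h4

lemma mul_walk {α : Type} {G : α → α → Prop} {a : ℕ} {w : α} (h : Wk G a w w) (q : ℕ) :
    Wk G (q * a) w w := by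
  induction q with
  | zero => rw [Nat.zero_mul]; rfl
  | succ q ih => rw [Nat.succ_mul]; exact ih.trans h

lemma semi {α : Type} {G : α → α → Prop} {a : ℕ} (ha : 1 ≤ a) {w : α} (h1 : Wk G a w w)
    (h2 : Wk G (a + 1) w w) (L : ℕ) (hL : a * (a - 1) ≤ L) : Wk G L w w := by
  have e := Nat.div_add_mod L a
  have hr := Nat.mod_lt L (show 0 < a by omega)
  have hq : a - 1 ≤ L / a := by
    rw [Nat.le_div_iff_mul_le (by omega), mul_comm]
    exact hL
  have h3 := (mul_walk h1 (L / a - L % a)).trans (mul_walk h2 (L % a))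
  have h4 : (L / a - L % a) * a + L % a * (a + 1) = L := by
    have h5 : L / a = (L / a - L % a) + L % a := by omega
    calc (L / a - L % a) * a + L % a * (a + 1)
        = a * ((L / a - L % a) + L % a) + L % a := by ring
      _ = L := by rw [← h5]; exact e
  rwa [h4] at h3

theorem up2 : StUp2 := by
  classical
  intro α _ G j hP hev h6 hx hmin k hk y
  obtain ⟨c, hc⟩ : ∃ c, c = Fintype.card α := ⟨_, rfl⟩
  rw [← hc] at hev h6 hx hmin hk
  obtain ⟨x, hx⟩ := hx
  -- the short cycle
  obtain ⟨Za, hZa, hZa'⟩ := cyc hx (fun i z hi hi' hw _ => hmin i z hi hi' hw)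
  -- odd closed walks
  obtain ⟨k0, hk0⟩ := hP.full
  have hk1 : 1 ≤ k0 := by
    by_contra hlt
    obtain rfl : k0 = 0 := by omega
    have : Fintype.card α ≤ 1 := Fintype.card_le_one_iff.2 (fun a b => by
      have h1 : j = a := hk0 a
      have h2 : j = b := hk0 b
      rw [← h1, ← h2])
    omega
  have hodd : ∃ b, Odd b ∧ ∃ x, Wk G b x x := by
    rcases Nat.even_or_odd k0 with h | h
    · exact ⟨k0 + 1, h.add_one, j, persist hk1 hk0 (k0 + 1) (by omega) j⟩
    · exact ⟨k0, h, j, hk0 j⟩
  obtain ⟨b, ⟨hbo, xb, hxb⟩, hbmin⟩ : ∃ b, (Odd b ∧ ∃ x, Wk G b x x) ∧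
      ∀ k x, Odd k → k < b → ¬ Wk G k x x :=
    ⟨Nat.find hodd, Nat.find_spec hodd, fun k x hk hkb hw => Nat.find_min hodd hkb ⟨hk, x, hw⟩⟩
  obtain ⟨Zb, hZb, hZb'⟩ := cyc hxb (fun i z hi hi' hw hw' => by
    rcases Nat.even_or_odd i with h | h
    · have h1 : Odd (b - i) := Nat.Odd.sub_even hi'.le hbo h
      exact hbmin (b - i) xb h1 (by omega) hw'
    · exact hbmin i z h hi' hw)
  have hbc : b = c - 1 := by
    have h1 : b ≤ c := by
      rw [← hZb, hc]; exact card_le_univ _
    have h2 : ¬ b < c - 2 := by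
      intro h
      exact hmin b xb hbo.pos h hxb
    obtain ⟨m, hm⟩ := hbo
    obtain ⟨m', hm'⟩ := hev
    omega
  have hint : c - 3 ≤ (Za ∩ Zb).card := by
    have h1 := card_union_add_card_inter Za Zb
    have h2 := card_le_univ (Za ∪ Zb)
    omega
  obtain ⟨t, ht, w, hwZ, hw⟩ := reach hP.conn j (Za ∩ Zb) 3 (by omega)
  obtain ⟨d, hd, y', hy', hwy⟩ := reach hP.conn w {y} (c - 1) (by
    rw [card_singleton]; omega)
  rw [mem_singleton] at hy'
  subst hy'
  have hwa := hZa' w (mem_inter.1 hwZ).1
  have hwb := hZb' w (mem_inter.1 hwZ).2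
  have e1 : b = c - 2 + 1 := by omega
  rw [e1] at hwb
  have e2 : (c - 2) * (c - 2 - 1) = (c - 2) * (c - 3) := by
    congr 1
  have h4 := semi (by omega) hwa hwb (k - t - d) (by rw [e2]; omega)
  have h5 := (hw.trans h4).trans hwy
  have e3 : t + (k - t - d) + d = k := by omega
  rwa [e3] at h5

end Pool.Agent.K7.H14.TG
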